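import Pool.Agent.Helper10.Qc.Stmts

/-! Upper certificate, module UF: the filter. -/

set_option autoImplicit false

namespace Pool.Agent.Helper10.Qc

open MeasureTheory
open Pool.Agent.Helper19.Qh Pool.Agent.Helper19.Qc

theorem uf_force {α : Type} (n : ℕ) (f : ℕ → α) : force n f = f n := by
  cases n <;> rfl

theorem uf_df (p n : ℕ) : ((df p n : ℕ) : ℝ) = |(p : ℝ) - n| := by
  have hd : df p n = (p - n) + (n - p) := rfl
  rw [hd]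
  rcases le_total p n with h | h
  · have h' : (p : ℝ) ≤ n := by exact_mod_cast h
    rw [Nat.sub_eq_zero_of_le h, zero_add, Nat.cast_sub h, abs_of_nonpos (by linarith)]
    ring
  · have h' : (n : ℝ) ≤ p := by exact_mod_cast h
    rw [Nat.sub_eq_zero_of_le h, add_zero, Nat.cast_sub h, abs_of_nonneg (by linarith)]

theorem uf_nsq (x0 x1 x2 x3 o : ℕ) : ((nsq x0 x1 x2 x3 o : ℕ) : ℝ) =
    ((x0 : ℝ) - o) ^ 2 + ((x1 : ℝ) - o) ^ 2 + ((x2 : ℝ) - o) ^ 2 + ((x3 : ℝ) - o) ^ 2 := by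
  have h : nsq x0 x1 x2 x3 o = (df x0 o * df x0 o + df x1 o * df x1 o) +
    (df x2 o * df x2 o + df x3 o * df x3 o) := rfl
  rw [h]
  push_cast
  rw [uf_df, uf_df, uf_df, uf_df, abs_mul_abs_self, abs_mul_abs_self, abs_mul_abs_self,
    abs_mul_abs_self]
  ring

theorem uf_mul_le (a x r : ℝ) (h : |x| ≤ r) : a * x ≤ |a| * r :=
  (le_abs_self _).trans (by
    rw [abs_mul]
    exact mul_le_mul_of_nonneg_left h (abs_nonneg _))

/-- the box -/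
def ufB (l0 h0 l1 h1 l2 h2 l3 h3 l h : ℕ) : Bx :=
  ⟨l0 + h0, l1 + h1, l2 + h2, l3 + h3, l + h, h0 - l0, h1 - l1, h2 - l2, h3 - l3, h - l,
    4096 * (l + h) - nsq (l0 + h0) (l1 + h1) (l2 + h2) (l3 + h3) 128⟩

theorem uf_withB (l0 h0 l1 h1 l2 h2 l3 h3 l h : ℕ) (f : Bx → Bool)
    (hf : withB l0 h0 l1 h1 l2 h2 l3 h3 l h f = true) :
    nsq (l0 + h0) (l1 + h1) (l2 + h2) (l3 + h3) 128 ≤ 4096 * (l + h) ∧
      f (ufB l0 h0 l1 h1 l2 h2 l3 h3 l h) = true := by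
  unfold withB at hf
  simp only [uf_force] at hf
  cases hc : Nat.ble (nsq (Nat.add l0 h0) (Nat.add l1 h1) (Nat.add l2 h2) (Nat.add l3 h3) 128)
        (Nat.mul 4096 (Nat.add l h)) with
  | false =>
    rw [hc] at hf
    exact absurd hf Bool.false_ne_true
  | true =>
    rw [hc] at hf
    exact ⟨Nat.le_of_ble_eq_true hc, hf⟩

theorem uf_drop (l0 h0 l1 h1 l2 h2 l3 h3 l h : ℕ) (n : En) (hn : GoodE n)
    (q0 : l0 ≤ h0) (q1 : l1 ≤ h1) (q2 : l2 ≤ h2) (q3 : l3 ≤ h3) (q : l ≤ h)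
    (hH : nsq (l0 + h0) (l1 + h1) (l2 + h2) (l3 + h3) 128 ≤ 4096 * (l + h))
    (hd : dropE (ufB l0 h0 l1 h1 l2 h2 l3 h3 l h) n = true)
    (e : Fin 4 → ℝ) (Y : ℝ) (hU' : InU l0 h0 l1 h1 l2 h2 l3 h3 l h e Y) : xU n e Y ≤ 0 := by
  unfold dropE at hd
  rw [uf_force] at hd
  set b := ufB l0 h0 l1 h1 l2 h2 l3 h3 l h with hb
  have hd' : 25920 * b.H + eL b (n.n * eT b n) n ≤ n.n * (eT b n * eT b n) := Nat.le_of_ble_eq_true hd
  have hdR : (25920 : ℝ) * (b.H : ℝ) + ((eL b (n.n * eT b n) n : ℕ) : ℝ) ≤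
      (n.n : ℝ) * ((eT b n : ℝ) * (eT b n : ℝ)) := by exact_mod_cast hd'
  -- the height at the centre
  have eH : (b.H : ℝ) = 4096 * ((l : ℝ) + h) - ((((l0 : ℝ) + h0) - 128) ^ 2 + (((l1 : ℝ) + h1) - 128) ^ 2 +
      (((l2 : ℝ) + h2) - 128) ^ 2 + (((l3 : ℝ) + h3) - 128) ^ 2) := by
    have : b.H = 4096 * (l + h) - nsq (l0 + h0) (l1 + h1) (l2 + h2) (l3 + h3) 128 := rfl
    rw [this, Nat.cast_sub hH, uf_nsq]
    push_cast
    ring
  -- the value T at the centre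
  have eC : (n.c : ℝ) = 64 * (((n.d0 : ℝ) - 128) ^ 2 + ((n.d1 : ℝ) - 128) ^ 2 + ((n.d2 : ℝ) - 128) ^ 2 +
      ((n.d3 : ℝ) - 128) ^ 2) + 384 * ((n.d0 : ℝ) + n.d1 + n.d2 + n.d3) := by
    have : n.c = 64 * nsq n.d0 n.d1 n.d2 n.d3 128 + 384 * (n.d0 + n.d1 + n.d2 + n.d3) := hn
    rw [this]
    push_cast
    rw [uf_nsq]
    push_cast
    ring
  have hT0 : eT b n = (144 * (l + h) + n.c + 384 * (((l0 + h0) + (l1 + h1)) + ((l2 + h2) + (l3 + h3)))) -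
      (3 * (((l0 + h0) * n.d0 + (l1 + h1) * n.d1) + ((l2 + h2) * n.d2 + (l3 + h3) * n.d3)) + 196608) := rfl
  have hHpos : (0 : ℝ) ≤ b.H := Nat.cast_nonneg _
  have hTle : (3 * (((l0 + h0) * n.d0 + (l1 + h1) * n.d1) + ((l2 + h2) * n.d2 + (l3 + h3) * n.d3)) + 196608) ≤
      (144 * (l + h) + n.c + 384 * (((l0 + h0) + (l1 + h1)) + ((l2 + h2) + (l3 + h3)))) := by
    have : ((3 * (((l0 + h0) * n.d0 + (l1 + h1) * n.d1) + ((l2 + h2) * n.d2 + (l3 + h3) * n.d3)) + 196608 : ℕ) : ℝ) ≤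
      ((144 * (l + h) + n.c + 384 * (((l0 + h0) + (l1 + h1)) + ((l2 + h2) + (l3 + h3))) : ℕ) : ℝ) := by
      push_cast
      rw [eC]
      rw [eH] at hHpos
      have s0 := sq_nonneg ((3 / 16) * (((l0 : ℝ) + h0) - 128) - 8 * ((n.d0 : ℝ) - 128))
      have s1 := sq_nonneg ((3 / 16) * (((l1 : ℝ) + h1) - 128) - 8 * ((n.d1 : ℝ) - 128))
      have s2 := sq_nonneg ((3 / 16) * (((l2 : ℝ) + h2) - 128) - 8 * ((n.d2 : ℝ) - 128))
      have s3 := sq_nonneg ((3 / 16) * (((l3 : ℝ) + h3) - 128) - 8 * ((n.d3 : ℝ) - 128))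
      linear_combination (9 / 256) * hHpos + s0 + s1 + s2 + s3
    exact_mod_cast this
  have eT' : ((eT b n : ℕ) : ℝ) = 144 * ((l : ℝ) + h) + n.c + 384 * (((l0 : ℝ) + h0) + ((l1 : ℝ) + h1) +
      (((l2 : ℝ) + h2) + ((l3 : ℝ) + h3))) - (3 * (((l0 : ℝ) + h0) * n.d0 + ((l1 : ℝ) + h1) * n.d1 +
      (((l2 : ℝ) + h2) * n.d2 + ((l3 : ℝ) + h3) * n.d3)) + 196608) := by
    rw [hT0, Nat.cast_sub hTle]
    push_cast
    ring
  -- the variation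
  have eLL : ((eL b (n.n * eT b n) n : ℕ) : ℝ) =
      |106168320 - 288 * ((n.n : ℝ) * (eT b n : ℝ))| * ((h : ℝ) - l) +
      (|6635520 + 6 * ((n.n : ℝ) * (eT b n : ℝ)) * n.d0 -
          (51840 * ((l0 : ℝ) + h0) + 768 * ((n.n : ℝ) * (eT b n : ℝ)))| * ((h0 : ℝ) - l0) +
       |6635520 + 6 * ((n.n : ℝ) * (eT b n : ℝ)) * n.d1 -
          (51840 * ((l1 : ℝ) + h1) + 768 * ((n.n : ℝ) * (eT b n : ℝ)))| * ((h1 : ℝ) - l1) +
       (|6635520 + 6 * ((n.n : ℝ) * (eT b n : ℝ)) * n.d2 -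
          (51840 * ((l2 : ℝ) + h2) + 768 * ((n.n : ℝ) * (eT b n : ℝ)))| * ((h2 : ℝ) - l2) +
        |6635520 + 6 * ((n.n : ℝ) * (eT b n : ℝ)) * n.d3 -
          (51840 * ((l3 : ℝ) + h3) + 768 * ((n.n : ℝ) * (eT b n : ℝ)))| * ((h3 : ℝ) - l3))) := by
    have : eL b (n.n * eT b n) n = df 106168320 (288 * (n.n * eT b n)) * (h - l) +
        ((df (6635520 + 6 * (n.n * eT b n) * n.d0) (51840 * (l0 + h0) + 768 * (n.n * eT b n)) * (h0 - l0) +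
          df (6635520 + 6 * (n.n * eT b n) * n.d1) (51840 * (l1 + h1) + 768 * (n.n * eT b n)) * (h1 - l1)) +
         (df (6635520 + 6 * (n.n * eT b n) * n.d2) (51840 * (l2 + h2) + 768 * (n.n * eT b n)) * (h2 - l2) +
          df (6635520 + 6 * (n.n * eT b n) * n.d3) (51840 * (l3 + h3) + 768 * (n.n * eT b n)) * (h3 - l3))) :=
      rfl
    rw [this]
    push_cast [Nat.cast_sub q0, Nat.cast_sub q1, Nat.cast_sub q2, Nat.cast_sub q3, Nat.cast_sub q]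
    rw [uf_df, uf_df, uf_df, uf_df, uf_df]
    push_cast
    ring
  obtain ⟨⟨a0, b0⟩, ⟨a1, b1⟩, ⟨a2, b2⟩, ⟨a3, b3⟩, ⟨a4, b4⟩⟩ := hU'
  have x0 : |2 * e 0 - ((l0 : ℝ) + h0)| ≤ (h0 : ℝ) - l0 := by rw [abs_le]; constructor <;> linarith
  have x1 : |2 * e 1 - ((l1 : ℝ) + h1)| ≤ (h1 : ℝ) - l1 := by rw [abs_le]; constructor <;> linarith
  have x2 : |2 * e 2 - ((l2 : ℝ) + h2)| ≤ (h2 : ℝ) - l2 := by rw [abs_le]; constructor <;> linarith
  have x3 : |2 * e 3 - ((l3 : ℝ) + h3)| ≤ (h3 : ℝ) - l3 := by rw [abs_le]; constructor <;> linarith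
  have x4 : |2 * Y - ((l : ℝ) + h)| ≤ (h : ℝ) - l := by rw [abs_le]; constructor <;> linarith
  have w0 := uf_mul_le (6635520 + 6 * ((n.n : ℝ) * (eT b n : ℝ)) * n.d0 -
          (51840 * ((l0 : ℝ) + h0) + 768 * ((n.n : ℝ) * (eT b n : ℝ)))) _ _ x0
  have w1 := uf_mul_le (6635520 + 6 * ((n.n : ℝ) * (eT b n : ℝ)) * n.d1 -
          (51840 * ((l1 : ℝ) + h1) + 768 * ((n.n : ℝ) * (eT b n : ℝ)))) _ _ x1
  have w2 := uf_mul_le (6635520 + 6 * ((n.n : ℝ) * (eT b n : ℝ)) * n.d2 -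
          (51840 * ((l2 : ℝ) + h2) + 768 * ((n.n : ℝ) * (eT b n : ℝ)))) _ _ x2
  have w3 := uf_mul_le (6635520 + 6 * ((n.n : ℝ) * (eT b n : ℝ)) * n.d3 -
          (51840 * ((l3 : ℝ) + h3) + 768 * ((n.n : ℝ) * (eT b n : ℝ)))) _ _ x3
  have w4 := uf_mul_le (106168320 - 288 * ((n.n : ℝ) * (eT b n : ℝ))) _ _ x4
  rw [eLL] at hdR
  -- hU and tU through the increments
  have k1 : hU e Y = (b.H : ℝ) + 4096 * (2 * Y - ((l : ℝ) + h)) -
      ((2 * (((l0 : ℝ) + h0) - 128) * (2 * e 0 - ((l0 : ℝ) + h0)) + (2 * e 0 - ((l0 : ℝ) + h0)) ^ 2) +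
       (2 * (((l1 : ℝ) + h1) - 128) * (2 * e 1 - ((l1 : ℝ) + h1)) + (2 * e 1 - ((l1 : ℝ) + h1)) ^ 2) +
       (2 * (((l2 : ℝ) + h2) - 128) * (2 * e 2 - ((l2 : ℝ) + h2)) + (2 * e 2 - ((l2 : ℝ) + h2)) ^ 2) +
       (2 * (((l3 : ℝ) + h3) - 128) * (2 * e 3 - ((l3 : ℝ) + h3)) + (2 * e 3 - ((l3 : ℝ) + h3)) ^ 2)) := by
    unfold hU
    rw [eH]
    ring
  have k2 : tU n e Y = ((eT b n : ℕ) : ℝ) + (144 * (2 * Y - ((l : ℝ) + h)) -
      3 * ((2 * e 0 - ((l0 : ℝ) + h0)) * ((n.d0 : ℝ) - 128) + (2 * e 1 - ((l1 : ℝ) + h1)) * ((n.d1 : ℝ) - 128) +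
        (2 * e 2 - ((l2 : ℝ) + h2)) * ((n.d2 : ℝ) - 128) + (2 * e 3 - ((l3 : ℝ) + h3)) * ((n.d3 : ℝ) - 128))) := by
    unfold tU
    rw [eT', eC]
    ring
  have hxU : xU n e Y = 25920 * hU e Y - n.n * tU n e Y ^ 2 := rfl
  rw [hxU, k1, k2]
  clear k1 k2 hxU eT' eLL hT0 hTle eC eH hd hd' hH hn
  generalize (eT b n : ℝ) = T at *
  generalize (2 * e 0 - ((l0 : ℝ) + h0)) = y0 at *
  generalize (2 * e 1 - ((l1 : ℝ) + h1)) = y1 at *
  generalize (2 * e 2 - ((l2 : ℝ) + h2)) = y2 at *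
  generalize (2 * e 3 - ((l3 : ℝ) + h3)) = y3 at *
  generalize (2 * Y - ((l : ℝ) + h)) = t at *
  have hn0 : (0 : ℝ) ≤ n.n := Nat.cast_nonneg _
  have hs := mul_nonneg hn0 (sq_nonneg (144 * t - 3 * (y0 * ((n.d0 : ℝ) - 128) + y1 * ((n.d1 : ℝ) - 128) +
    y2 * ((n.d2 : ℝ) - 128) + y3 * ((n.d3 : ℝ) - 128))))
  have p0 := sq_nonneg y0
  have p1 := sq_nonneg y1
  have p2 := sq_nonneg y2
  have p3 := sq_nonneg y3
  linear_combination hdR + w0 + w1 + w2 + w3 + w4 + hs + 25920 * (p0 + p1 + p2 + p3)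

theorem uf_filt_mem (b : Bx) (L : List En) (n : En) (hn : n ∈ filt b L) : n ∈ L := by
  induction L with
  | nil => exact hn
  | cons a l ih =>
    unfold filt at hn
    cases hd : dropE b a with
    | true => rw [hd] at hn; exact List.mem_cons_of_mem _ (ih hn)
    | false =>
      rw [hd] at hn
      rcases List.mem_cons.1 hn with h | h
      · rw [h]; exact List.mem_cons_self
      · exact List.mem_cons_of_mem _ (ih h)

theorem uf_filt_sum (b : Bx) (L : List En) (g : En → ℝ)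
    (hg : ∀ n ∈ L, dropE b n = true → g n ≤ 0) : (L.map g).sum ≤ ((filt b L).map g).sum := by
  induction L with
  | nil => exact le_rfl
  | cons a l ih =>
    have ih' := ih (fun n hn => hg n (List.mem_cons_of_mem _ hn))
    unfold filt
    cases hd : dropE b a with
    | true =>
      have := hg a List.mem_cons_self hd
      simp only [cond_true, List.map_cons, List.sum_cons]
      linarith
    | false =>
      simp only [cond_false, List.map_cons, List.sum_cons]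
      linarith

theorem uf_psi (h1 : ST_PS1) (h2 : ST_PS2) (h3 : ST_PS3) (n : ℕ) (x : ℝ) (hx : x ≤ 0) : Psi n x ≤ 0 := by
  by_cases e1 : n = 1
  · subst e1
    rw [← h1.2.2.1]
    exact h1.1 hx
  · by_cases e2 : n = 2
    · subst e2
      rw [← h2.2.2.1]
      exact h2.1 hx
    · rw [← (h3 n e1 e2).2.2.2.1]
      exact (h3 n e1 e2).2.1 hx

theorem st_UF (h1 : ST_PS1) (h2 : ST_PS2) (h3 : ST_PS3) : ST_UF := by
  intro L l0 h0 l1 h1' l2 h2' l3 h3' l h f hL q0 q1 q2 q3 q hf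
  obtain ⟨hH, hf'⟩ := uf_withB l0 h0 l1 h1' l2 h2' l3 h3' l h (fun b => f b (filt b L)) hf
  refine ⟨filt (ufB l0 h0 l1 h1' l2 h2' l3 h3' l h) L, fun n hn => hL n (uf_filt_mem _ _ _ hn),
    ⟨_, hf'⟩, ?_⟩
  intro e Y hU'
  unfold SU
  have := uf_filt_sum (ufB l0 h0 l1 h1' l2 h2' l3 h3' l h) L (fun n => Psi n.n (xU n e Y / sS))
    (fun n hn hd => by
      have hx := uf_drop l0 h0 l1 h1' l2 h2' l3 h3' l h n (hL n hn) q0 q1 q2 q3 q hH hd e Y hU'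
      exact uf_psi h1 h2 h3 n.n _ (div_nonpos_of_nonpos_of_nonneg hx (Nat.cast_nonneg _)))
  linarith

end Pool.Agent.Helper10.Qc
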